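import Pool.Agent.Helper511_AmpleT.AmpleQ
import Pool.Agent.Helper511_AmpleT.ConeQ

set_option autoImplicit false

/-!
A smooth projective threefold in characteristic `2` which is not a projective space and has an ample
line bundle with a nonzero map to the tangent bundle: the quadric `x₀² + x₁x₂ + x₃x₄ = 0` in `ℙ⁴`,
with `L = O(1)`. The derivation `∂/∂x₀` of the polynomial ring kills the equation, as
`∂(x₀²)/∂x₀ = 2 x₀ = 0`, so the derivations `x_j ∂/∂x₀` of degree zero act on the quadric, and
`x_j ↦ x_j ∂/∂x₀` is a nonzero map `O(1) → T`.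
-/

open AlgebraicGeometry CategoryTheory MvPolynomial

namespace Pool.Agent.Results.MP_63fcef_ag.QuadricThreefold

open Pool.Agent.Helper511T H944U

attribute [local instance] MvPolynomial.gradedAlgebra

/-- For each algebraically closed field `k` of characteristic `2` there is a smooth projective
integral threefold `X` over `k` which is not isomorphic to any `ℙⁿ` and has an ample line bundle `L`
with a nonzero map to the tangent sheaf. -/
theorem result (k : Type) [Field k] [IsAlgClosed k] [CharP k 2] :
    ∃ (X : Scheme.{0}) (ι : X ⟶ PP k 4), IsClosedImmersion ι ∧ IsIntegral X ∧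
      SmoothOfRelativeDimension 3 (ι ≫ toSpecK (homogeneousSubmodule (Fin (4 + 1)) k)) ∧
      (∀ n : ℕ, IsEmpty (X ≅ PP k n)) ∧
      ∃ L : X.Modules, IsLineBundle L ∧ IsAmple L ∧
        ∃ φ : L ⟶ tangentSheaf (ι ≫ toSpecK (homogeneousSubmodule (Fin (4 + 1)) k)), φ ≠ 0 := by
  refine ⟨QQ k, emb k, emb_closed k, integral_quadric k, smooth_emb k, fun n => ⟨fun e => ?_⟩,
    LL k, isLineBundle_LL k, isAmple_LL k, exists_hom k _⟩
  exact not_hasCone_PP k n ((hasCone_QQ k).of_iso e)

end Pool.Agent.Results.MP_63fcef_ag.QuadricThreefold
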